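import Pool.Agent.H44.DU.Targets

/-!
`du_modules` [BN]: there are no boundary points.
-/

namespace Pool.Agent.H3.DU.BN

open Pool.Agent.H44.DU

theorem pf_BN (h1 : T_BS) (h2 : T_K1) : T_BN := by
  intro n S t I hG hA hI r x w hB
  obtain ⟨N, hN⟩ := h2 n S t I hA
  have key : ∀ k : ℕ, ∃ (r' : Side n) (x' : ℝ) (w' : List (Side n)),
      S.Bdy t I r' x' w' ∧ w'.length = w.length + k := by
    intro k
    induction k with
    | zero => exact ⟨r, x, w, hB, rfl⟩
    | succ k ih =>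
      obtain ⟨r', x', w', hb, hl⟩ := ih
      obtain ⟨r'', x'', hb'⟩ := h1 n S t I hG hA hI r' x' w' hb
      exact ⟨r'', x'', r' :: w', hb', by rw [List.length_cons, hl]; ring⟩
  obtain ⟨r', x', w', hb, hl⟩ := key N
  obtain ⟨hE, _, ⟨y, hy⟩, _⟩ := hb
  have := hN _ y hE hy
  rw [List.length_cons, hl] at this
  omega

end Pool.Agent.H3.DU.BN
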