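import Pool.Agent.H44.DU.Targets2

/-!
# Board du_modules, module HL2
-/

set_option autoImplicit false

namespace Pool.Agent.H3.DU.HL2

open Pool.Agent.H44.DU

variable {n : ℕ} (S : Surf n)

/-- The defect of the pair number `k`. -/
noncomputable def del (α : Fin n → ℝ) (β : Fin n → ℂ) (t : ℝ) (w : List (Side n)) (k : ℕ)
    (h : k + 1 < w.length) (x : ℝ) : ℝ :=
  S.ex α β t w[k + 1] (S.g t (w.take (k + 1)) x) -
    S.a w[k] * S.ex α β t w[k] (S.g t (w.take k) x)

lemma del_cons (α : Fin n → ℝ) (β : Fin n → ℂ) (t : ℝ) (r : Side n) (w : List (Side n)) (k : ℕ)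
    (h : k + 1 < w.length) (x : ℝ) :
    del S α β t (r :: w) (k + 1) (by simpa using h) x = del S α β t w k h (S.mv t r x) := by
  simp only [del, List.getElem_cons_succ, List.take_succ_cons, Surf.g_cons]

lemma del_zero (α : Fin n → ℝ) (β : Fin n → ℂ) (t : ℝ) (r r' : Side n) (w : List (Side n))
    (x : ℝ) : del S α β t (r :: r' :: w) 0 (by simp) x =
      S.ex α β t r' (S.mv t r x) - S.a r * S.ex α β t r x := by
  simp only [del, List.getElem_cons_succ, List.getElem_cons_zero, List.take_succ_cons,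
    List.take_zero, Surf.g_cons, Surf.g_nil, zero_add]

lemma dfc_nonneg (α : Fin n → ℝ) (β : Fin n → ℂ) (t : ℝ) :
    ∀ (w : List (Side n)) (x : ℝ), (∀ k (h : k + 1 < w.length), 0 ≤ del S α β t w k h x) →
      0 ≤ S.dfc α β t w x
  | [], _, _ => le_refl _
  | [_], _, _ => le_refl _
  | r :: r' :: w, x, H => by
    have h0 := H 0 (by simp)
    rw [del_zero] at h0
    have h1 := dfc_nonneg α β t (r' :: w) (S.mv t r x) (fun k h => by
      rw [← del_cons]
      exact H (k + 1) _)
    rw [Surf.dfc]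
    linarith

lemma dfc_zero (α : Fin n → ℝ) (β : Fin n → ℂ) (t : ℝ) :
    ∀ (w : List (Side n)) (x : ℝ), (∀ k (h : k + 1 < w.length), 0 ≤ del S α β t w k h x) →
      S.dfc α β t w x ≤ 0 → ∀ k (h : k + 1 < w.length), del S α β t w k h x = 0
  | [], _, _, _ => fun k h => by simp at h
  | [_], _, _, _ => fun k h => by simp at h
  | r :: r' :: w, x, H, hd => by
    have h0 := H 0 (by simp)
    rw [del_zero] at h0
    have H' : ∀ k (h : k + 1 < (r' :: w).length),
        0 ≤ del S α β t (r' :: w) k h (S.mv t r x) := fun k h => by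
      rw [← del_cons]
      exact H (k + 1) _
    have h1 := dfc_nonneg S α β t (r' :: w) (S.mv t r x) H'
    rw [Surf.dfc] at hd
    intro k h
    cases k with
    | zero =>
      rw [del_zero]
      linarith
    | succ k =>
      rw [del_cons S α β t r (r' :: w) k (by simpa using h) x]
      exact dfc_zero α β t (r' :: w) (S.mv t r x) H' (by linarith) k _

lemma del_cont (α : Fin n → ℝ) (β : Fin n → ℂ) (t : ℝ) (w : List (Side n)) (k : ℕ)
    (h : k + 1 < w.length) : Continuous (del S α β t w k h) := by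
  unfold del Surf.ex hh Surf.pt Surf.lam Surf.g
  simp only [Complex.add_re, Complex.add_im, Complex.mul_re, Complex.mul_im,
    Complex.ofReal_re, Complex.ofReal_im]
  fun_prop

/-- the next coordinate -/
lemma g_take_succ (t : ℝ) (w : List (Side n)) (k : ℕ) (h : k < w.length) (x : ℝ) :
    S.g t (w.take (k + 1)) x = S.mv t w[k] (S.g t (w.take k) x) := by
  rw [List.take_succ_eq_append_getElem h, Surf.g_append, Surf.g_single]

lemma run_pair {t : ℝ} {w : List (Side n)} {y : ℝ} (hy : S.Run t w y) (k : ℕ)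
    (h : k + 1 < w.length) : S.Run t [w[k], w[k + 1]] (S.g t (w.take k) y) := by
  have h1 := S.run_take (S.run_drop hy k) 2
  have h2 : (w.drop k).take 2 = [w[k], w[k + 1]] := by
    rw [List.drop_eq_getElem_cons (by omega : k < w.length),
      List.drop_eq_getElem_cons (by omega : k + 1 < w.length)]
    rfl
  rwa [h2] at h1

lemma del_nonneg (hHL1 : T_HL1) {J : Set ℝ} {up : ℤ → Prop} {lev : Fin n → ℤ}
    {α : Fin n → ℝ} {β : Fin n → ℂ} {t : ℝ} {l : ℤ} (hJ : IsOpen J)
    (hH : S.Heights J up lev α β) (ht : t ∈ J) (hl : up l) {w : List (Side n)}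
    (hw : ∀ r ∈ w, lev r.1 = l) {y : ℝ} (hy : S.Run t w y) (k : ℕ) (h : k + 1 < w.length) :
    0 ≤ del S α β t w k h y := by
  have h1 := (hHL1 n S J up lev α β hJ hH).2.1 t ht w[k] w[k + 1] _ (run_pair S hy k h)
    ((hw _ (List.getElem_mem _)).trans (hw _ (List.getElem_mem _)).symm)
    (by rw [hw _ (List.getElem_mem _)]; exact hl)
  have h2 := h1.1
  rw [← g_take_succ] at h2
  unfold del
  linarith

theorem pf_HL2 (hHL1 : T_HL1) (hKD : T_KD) (hLH : T_LH) : T_HL2 := by
  intro n S J up lev α β t c N l hJ hH ht hG hc hgain hB hl w x hw hlen hrun hlo hhi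
  obtain ⟨y, hy⟩ := hrun
  have hwne : w ≠ [] := by
    rintro rfl
    simp at hlen
  have hch := (hLH n S t w hwne y).mp hy
  have hlt : S.lo t w < S.hi t w := hch.2.1.trans hch.2.2
  have hnn : ∀ k (h : k + 1 < w.length), 0 ≤ del S α β t w k h x := by
    intro k h
    have hcl : IsClosed {z | 0 ≤ del S α β t w k h z} :=
      isClosed_le continuous_const (del_cont S α β t w k h)
    have hsub : Set.Ioo (S.lo t w) (S.hi t w) ⊆ {z | 0 ≤ del S α β t w k h z} := by
      intro z hz
      exact del_nonneg S hHL1 hJ hH ht hl hw ((hLH n S t w hwne z).mpr ⟨hch.1, hz.1, hz.2⟩) k h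
    have h1 := closure_minimal hsub hcl
    rw [closure_Ioo hlt.ne] at h1
    exact h1 ⟨hlo, hhi⟩
  by_contra hneg
  have hz := dfc_zero S α β t w x hnn (not_lt.mp hneg)
  have hkd := hKD n S t c hG hc hgain w x ⟨y, hy⟩ hlo hhi
  -- a block of interior indices
  obtain ⟨p, hp, hint⟩ : ∃ p, p + N + 2 < w.length ∧ ∀ k, p ≤ k → k ≤ p + N + 2 →
      ∀ h : k < w.length, S.InJ t w[k] (S.g t (w.take k) x) := by
    by_cases h1 : ∀ k, k ≤ N + 2 → ∀ h : k < w.length, S.InJ t w[k] (S.g t (w.take k) x)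
    · exact ⟨0, by omega, fun k _ h2 h => h1 k (by omega) h⟩
    · push Not at h1
      obtain ⟨k₁, hk₁, hk₁', hk₁''⟩ := h1
      refine ⟨N + 2 + 3 * n, by omega, fun k h2 h3 h => ?_⟩
      by_contra h4
      have := hkd k₁ k hk₁' h hk₁'' h4
      omega
  have hkey : ∀ k, p ≤ k → k + 1 ≤ p + N + 2 → ∀ h : k + 1 < w.length,
      β (w[k + 1]).1 = 0 ∧ (β (w[k]).1 = 0 → S.a w[k] = 1) ∧ (S.gl w[k]).1 = (w[k + 1]).1 := by
    intro k hk1 hk2 h
    have hr := run_pair S hy k h
    have hj : (S.gl w[k]).1 = (w[k + 1]).1 := ((S.run_cons_cons t _ _ _ _).mp hr).2.1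
    have hx : S.Run t [w[k], w[k + 1]] (S.g t (w.take k) x) := by
      rw [Surf.run_cons_cons, Surf.run_single]
      refine ⟨hint k hk1 (by omega) (by omega), hj, ?_⟩
      rw [← g_take_succ]
      exact hint (k + 1) (by omega) hk2 h
    have h1 := (hHL1 n S J up lev α β hJ hH).2.1 t ht w[k] w[k + 1] _ hx
      ((hw _ (List.getElem_mem _)).trans (hw _ (List.getElem_mem _)).symm)
      (by rw [hw _ (List.getElem_mem _)]; exact hl)
    have h2 := hz k h
    unfold del at h2
    rw [g_take_succ S t w k (by omega)] at h2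
    have h3 := h1.2 (by linarith)
    exact ⟨h3.1, h3.2, hj⟩
  have hI : ∀ k, p + 1 ≤ k → k ≤ p + N + 1 → ∀ h : k < w.length, S.IntL β w[k] := by
    intro k hk1 hk2 h
    obtain ⟨j, rfl⟩ : ∃ j, k = j + 1 := ⟨k - 1, by omega⟩
    have h1 := hkey j (by omega) (by omega) h
    have h2 := hkey (j + 1) (by omega) (by omega) (by omega)
    exact ⟨h1.1, by rw [h2.2.2]; exact h2.1, h2.2.1 h1.1⟩
  have hlast := hB ((w.drop (p + 1)).take (N + 1)) (S.g t (w.take (p + 1)) y) (by
    intro r hr
    obtain ⟨i, hi, rfl⟩ := List.getElem_of_mem hr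
    have hi' : i < N + 1 := by
      rw [List.length_take] at hi
      omega
    rw [List.getElem_take, List.getElem_drop]
    exact hI _ (by omega) (by omega) _) (S.run_take (S.run_drop hy (p + 1)) (N + 1))
  rw [List.length_take, List.length_drop] at hlast
  omega

end Pool.Agent.H3.DU.HL2
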