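import Pool.Agent.H44.DU.Basic2

/-!
`du_modules` [P3]: without bad words, the first letters determine the orbit.
-/

namespace Pool.Agent.H3.DU.P3

open Pool.Agent.H44.DU

variable {n : ℕ}

theorem run_cons {S : Surf n} {t x : ℝ} {a : Side n} {w : List (Side n)}
    (h : S.Run t (a :: w) x) :
    S.InJ t a x ∧ (∀ r' ∈ w.head?, (S.gl a).1 = r'.1) ∧ S.Run t w (S.mv t a x) := h

/-- The states of the recursion: a letter, the rest of the word, and a point. -/
def St (S : Surf n) (U : Fin n → Prop) (t : ℝ) (m : ℕ) : Type :=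
  {p : Side n × List (Side n) × ℝ // (p.1 :: p.2.1) ∈ S.RW U t m ∧ S.Run t (p.1 :: p.2.1) p.2.2}

theorem next {S : Surf n} {U : Fin n → Prop} {t : ℝ} {m : ℕ}
    (h1 : ∀ w ∈ S.RW U t m, ∃ r : Side n, w.tail ++ [r] ∈ S.RW U t m ∧
      (∀ x, S.Run t w x → S.Run t (w ++ [r]) x) ∧ ∀ r' x, S.Run t (w ++ [r']) x → r' = r)
    (p : St S U t m) : ∃ q : St S U t m, ∃ r : Side n,
      q.1.1 :: q.1.2.1 = p.1.2.1 ++ [r] ∧ q.1.2.2 = S.mv t p.1.1 p.1.2.2 ∧
      (S.gl p.1.1).1 = q.1.1.1 := by
  obtain ⟨⟨a, w, x⟩, hp1, hp2⟩ := p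
  simp only at hp1 hp2
  obtain ⟨r, hr1, hr2, -⟩ := h1 _ hp1
  have hr3 := run_cons (hr2 x hp2)
  rw [List.tail_cons] at hr1
  obtain ⟨b, w'', hb⟩ : ∃ b w'', w ++ [r] = b :: w'' := by
    cases w with
    | nil => exact ⟨r, [], rfl⟩
    | cons c w => exact ⟨c, w ++ [r], rfl⟩
  have hr4 : S.Run t (b :: w'') (S.mv t a x) := by rw [← hb]; exact hr3.2.2
  refine ⟨⟨(b, w'', S.mv t a x), ?_, hr4⟩, r, hb.symm, rfl, ?_⟩
  · show (b :: w'') ∈ S.RW U t m
    rw [← hb]; exact hr1
  · show (S.gl a).1 = b.1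
    apply hr3.2.1
    show b ∈ (w ++ [r]).head?
    rw [hb]; rfl

theorem first (h : T_P1) (S : Surf n) (U : Fin n → Prop) (t : ℝ) (m : ℕ) (hA : S.Abs U t)
    (hm : 0 < m) (hN : S.NotBad U t m) (w : List (Side n)) (hw : w ∈ S.RW U t m) (x : ℝ)
    (hx : S.Run t w x) : ∃ y : ℕ → Side n × ℝ,
      (∀ k, S.Tr t (y k) (y (k + 1))) ∧ (y 0).2 = x ∧ (∀ k, U (y k).1.1) ∧
      (List.range m).map (fun j => (y j).1) = w := by
  have h1 := h n S U t m hA hm hN
  choose f g hf1 hf2 hf3 using next h1
  obtain ⟨a, w₀, rfl⟩ : ∃ a w₀, w = a :: w₀ := by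
    cases w with
    | nil => have := hw.1; simp at this; omega
    | cons a w₀ => exact ⟨a, w₀, rfl⟩
  let σ : ℕ → St S U t m := fun k => f^[k] ⟨(a, w₀, x), hw, hx⟩
  have hσ : ∀ k, σ (k + 1) = f (σ k) := fun k => Function.iterate_succ_apply' f k _
  have hlen : ∀ k, (σ k).1.2.1.length + 1 = m := by
    intro k
    have := (σ k).2.1.1
    rwa [List.length_cons] at this
  refine ⟨fun k => ((σ k).1.1, (σ k).1.2.2), ?_, rfl, ?_, ?_⟩
  · intro k
    refine ⟨(run_cons (σ k).2.2).1, (run_cons (σ (k + 1)).2.2).1, ?_, ?_⟩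
    · show (S.gl (σ k).1.1).1 = (σ (k + 1)).1.1.1
      rw [hσ]; exact hf3 (σ k)
    · show (σ (k + 1)).1.2.2 = S.mv t (σ k).1.1 (σ k).1.2.2
      rw [hσ]; exact hf2 (σ k)
  · intro k
    exact (σ k).2.1.2.1 _ List.mem_cons_self
  · have key : ∀ i, i ≤ m → ∀ k, ((σ k).1.1 :: (σ k).1.2.1).take i =
        (List.range i).map (fun j => (σ (k + j)).1.1) := by
      intro i
      induction i with
      | zero => intro _ k; simp
      | succ i ih =>
        intro hi k
        have e1 := ih (by omega) (k + 1)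
        rw [hσ k, hf1 (σ k)] at e1
        rw [List.take_append_of_le_length (by have := hlen k; omega)] at e1
        rw [List.take_succ_cons, e1, List.range_succ_eq_map, List.map_cons, List.map_map]
        simp only [add_zero, List.cons.injEq, true_and]
        apply List.map_congr_left
        intro j _
        simp only [Function.comp, Nat.succ_eq_add_one]
        rw [show k + (j + 1) = k + 1 + j by ring]
    have := key m le_rfl 0
    rw [List.take_of_length_le (by rw [List.length_cons, hlen 0])] at this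
    simp only [Nat.zero_add] at this
    exact this.symm

theorem pf_P3 (h : T_P1) : T_P3 := by
  intro n S U t m hA hm hN
  refine ⟨fun w hw x hx => first h S U t m hA hm hN w hw x hx, ?_⟩
  intro y y' hy hy' hU hj
  have hUy : ∀ k, U (y k).1.1 := by
    intro k
    induction k with
    | zero => exact hU
    | succ k ih =>
      have := hA _ _ (hy k).1 ih
      rwa [(hy k).2.2.1] at this
  intro j
  induction j using Nat.strong_induction_on with
  | _ j ih =>
    rcases Nat.lt_or_ge j m with hlt | hge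
    · exact hj j hlt
    · obtain ⟨k, rfl⟩ : ∃ k, j = k + m := ⟨j - m, by omega⟩
      have ew : (List.range m).map (fun i => (y (k + i)).1) =
          (List.range m).map (fun i => (y' (k + i)).1) := by
        apply List.map_congr_left
        intro i hi
        have := List.mem_range.1 hi
        exact ih (k + i) (by omega)
      have r1 := (S.chain_run hy k m).1
      have r2 := (S.chain_run hy k (m + 1)).1
      have r3 := (S.chain_run hy' k (m + 1)).1
      rw [List.range_succ, List.map_append, List.map_singleton] at r2 r3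
      rw [← ew] at r3
      have hw : (List.range m).map (fun i => (y (k + i)).1) ∈ S.RW U t m := by
        refine ⟨by simp, ?_, _, r1⟩
        intro r hr
        obtain ⟨i, -, rfl⟩ := List.mem_map.1 hr
        exact hUy _
      obtain ⟨r, -, -, hr⟩ := h n S U t m hA hm hN _ hw
      rw [hr _ _ r2, hr _ _ r3]

end Pool.Agent.H3.DU.P3
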